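import Pool.Agent.Run7.h360.Final

/-!
# The 1-loop formula for the adjoint torsion computed from an arbitrary ideal triangulation

Let `T` be an oriented ideal triangulation with one cusp, `z` nondegenerate shapes which solve the
edge and completeness equations (for example the geometric ones), `A` the parallel transport of
the holonomy, `θ` a closed peripheral curve in normal position, `f` a combinatorial flattening and
`r` a row. Let `X` be an ideal triangulation with a flat bundle and a peripheral cycle which is
connected with `(T, A, θ)` by 2-3 Pachner moves, their inverses and isomorphisms; no shapes are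
given, and they need not exist, for `X`. Then each value of the adjoint torsion computed from `X`
is the 1-loop invariant of `(T, z, θ)` up to sign. If the shapes have positive imaginary parts and
`θ` is not null-homologous in the cusp torus, then the adjoint torsion of `X` is defined.
-/

set_option autoImplicit false

namespace Pool.Agent.Results.MP_ea3d9a_gt.AllTriangulations

open Pool.Agent.H15_OneLoop Run7.h360

theorem result {N : ℕ} (T : IdealTriangulation N) (z : Fin N → ℂ) (hz : Solution T z)
    (A : Fin N → Fin 4 → Mat2) (hA : IsHolonomy T.toGluing z A) (θ : NormalCurve T.toGluing)
    (f : Fin 3 → Fin N → ℤ) (hf : IsFlattening T f) (r : Fin N) (X : Framed)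
    (hX : X.Equiv (ofShapes T z A hA θ)) :
    (∀ τ, X.IsTorsion τ → τ = oneLoop T z θ f r ∨ τ = -oneLoop T z θ f r) ∧
      ((∀ j, 0 < (z j).im) → ¬ θ.NullHomologous → ∃ τ, X.IsTorsion τ) :=
  main T z hz A hA θ f hf r X hX

end Pool.Agent.Results.MP_ea3d9a_gt.AllTriangulations
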